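import Pool.Agent.Helper23_LAP.Stmts

/-!
# LAP, module CN2: the event for the crossing arcs
-/

set_option autoImplicit false

namespace Pool.Agent.LAP.H68

open scoped Classical

section basic

variable {α β V W U S Λ γ : Type}

theorem mem_out [Fintype β] (R : Finset (α × β)) (x : α) (y : β) :
    y ∈ out R x ↔ (x, y) ∈ R := by simp [out]

theorem mem_inn [Fintype α] (R : Finset (α × β)) (x : α) (y : β) :
    x ∈ inn R y ↔ (x, y) ∈ R := by simp [inn]

theorem mem_dom (R : Finset (α × β)) (x : α) : x ∈ dom R ↔ ∃ y, (x, y) ∈ R := by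
  simp [dom]

theorem mem_ran (R : Finset (α × β)) (y : β) : y ∈ ran R ↔ ∃ x, (x, y) ∈ R := by
  simp [ran]

theorem mem_crs (R : Finset (α × β)) (X : Finset α) (Y : Finset β) (A : Finset α) (B : Finset β)
    (a : α × β) : a ∈ crs R X Y A B ↔ a ∈ R ∧ (a.1 ∈ X ∧ a.2 ∈ Y) ∧
      ((a.1 ∉ A ∧ a.2 ∈ B) ∨ (a.1 ∈ A ∧ a.2 ∉ B)) := by
  simp only [crs, ain, aou, Finset.mem_union, Finset.mem_filter]
  tauto

/-- Membership in a filter for any decidability instance. -/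
theorem mem_filter' {p : γ → Prop} {inst : DecidablePred p} {s : Finset γ} {a : γ} :
    a ∈ @Finset.filter γ p inst s ↔ a ∈ s ∧ p a := @Finset.mem_filter γ p inst s a

theorem pr_mono [Fintype U] [Fintype S] {A B : Set (U → S)} (h : A ⊆ B) : pr A ≤ pr B := by
  unfold pr
  apply div_le_div_of_nonneg_right _ (by positivity)
  exact_mod_cast Finset.card_le_card (fun ω hω => by
    simp only [Finset.mem_filter, Finset.mem_univ, true_and] at hω ⊢
    exact h hω)

theorem cut_sub (M : Finset Λ) (rep : Λ → U) (sg : Λ → Bool) (ω : U → Bool) :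
    cut M rep sg ω ⊆ M := Finset.filter_subset _ _

theorem PI_sub {F G : Finset (α × β)} (h : F ⊆ G) (hG : PI G) : PI F :=
  ⟨fun x y y' h1 h2 => hG.1 x y y' (h h1) (h h2), fun x x' y h1 h2 => hG.2 x x' y (h h1) (h h2)⟩

/-- Near the closure: head. -/
theorem near_clB [Fintype α] [Fintype β] (E : Finset (α × β)) (t : ℕ) (ht : 1 ≤ t)
    (Q : Finset (α ⊕ β)) (y : β) (hy : y ∈ clB E t Q) :
    ∃ x, Sum.inl x ∈ Q ∧ (x, y) ∈ E := by
  simp only [clB, clI, Finset.mem_filter, Finset.mem_univ, true_and] at hy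
  have h1 : 0 < (inn E y ∩ lp Q).card := by omega
  obtain ⟨x, hx⟩ := Finset.card_pos.1 h1
  rw [Finset.mem_inter, mem_inn] at hx
  refine ⟨x, ?_, hx.1⟩
  have := hx.2
  simpa [lp] using this

/-- Near the closure: tail. -/
theorem near_clA [Fintype α] [Fintype β] (E : Finset (α × β)) (t : ℕ) (ht : 1 ≤ t)
    (Q : Finset (α ⊕ β)) (x : α) (hx : x ∈ clA E t Q) :
    ∃ y, Sum.inr y ∈ Q ∧ (x, y) ∈ E := by
  simp only [clA, clO, Finset.mem_filter, Finset.mem_univ, true_and] at hx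
  have h1 : 0 < (out E x ∩ rp Q).card := by omega
  obtain ⟨y, hy⟩ := Finset.card_pos.1 h1
  rw [Finset.mem_inter, mem_out] at hy
  refine ⟨y, ?_, hy.1⟩
  have := hy.2
  simpa [rp] using this

theorem nr1_refl (r : W → W → Prop) (u : W) : nr1 r u u := Or.inl rfl

/-- Both ends of an arc with an end in the closure are near. -/
theorem near_arc [Fintype α] [Fintype β] (E : Finset (α × β)) (t : ℕ) (ht : 1 ≤ t)
    (Q : Finset (α ⊕ β)) (x : α) (y : β) (hxy : (x, y) ∈ E)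
    (h : x ∈ clA E t Q ∨ y ∈ clB E t Q) :
    (∃ z ∈ Q, nr3 (sadj E) (Sum.inl x) z) ∧ ∃ z ∈ Q, nr3 (sadj E) (Sum.inr y) z := by
  rcases h with h | h
  · obtain ⟨y', hy', hE⟩ := near_clA E t ht Q x h
    refine ⟨⟨Sum.inr y', hy', Sum.inl x, Sum.inl x, nr1_refl _ _, nr1_refl _ _, Or.inr hE⟩,
      ⟨Sum.inr y', hy', Sum.inr y, Sum.inl x, nr1_refl _ _, Or.inr hxy, Or.inr hE⟩⟩
  · obtain ⟨x', hx', hE⟩ := near_clB E t ht Q y h
    refine ⟨⟨Sum.inl x', hx', Sum.inl x, Sum.inr y, nr1_refl _ _, Or.inr hxy, Or.inr hE⟩,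
      ⟨Sum.inl x', hx', Sum.inr y, Sum.inr y, nr1_refl _ _, nr1_refl _ _, Or.inr hE⟩⟩

/-- The pairs of links of `F` whose crossed arc is a crossing arc. -/
noncomputable def prs (R : Finset (α × β)) (A : Finset α) (B : Finset β)
    (F : Finset (α × β)) : Finset ((α × β) × (α × β)) :=
  (F ×ˢ F).filter fun p => (p.1.1, p.2.2) ∈ R ∧
    ((p.1.1 ∉ A ∧ p.2.2 ∈ B) ∨ (p.1.1 ∈ A ∧ p.2.2 ∉ B))

theorem mem_prs (R : Finset (α × β)) (A : Finset α) (B : Finset β)
    (F : Finset (α × β)) (p : (α × β) × (α × β)) : p ∈ prs R A B F ↔ (p.1 ∈ F ∧ p.2 ∈ F) ∧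
      (p.1.1, p.2.2) ∈ R ∧ ((p.1.1 ∉ A ∧ p.2.2 ∈ B) ∨ (p.1.1 ∈ A ∧ p.2.2 ∉ B)) := by
  simp [prs]

theorem prs_inj {F : Finset (α × β)} (hF : PI F) {p p' : (α × β) × (α × β)}
    (h1 : p.1 ∈ F) (h2 : p.2 ∈ F) (h1' : p'.1 ∈ F) (h2' : p'.2 ∈ F) (e1 : p.1.1 = p'.1.1)
    (e2 : p.2.2 = p'.2.2) : p = p' := by
  obtain ⟨⟨x, y⟩, ⟨u, v⟩⟩ := p
  obtain ⟨⟨x', y'⟩, ⟨u', v'⟩⟩ := p'
  simp only at h1 h2 h1' h2' e1 e2
  subst e1 e2
  have a := hF.1 _ _ _ h1 h1'
  have b := hF.2 _ _ _ h2 h2'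
  subst a b
  rfl

theorem crs_card (R : Finset (α × β)) (A : Finset α) (B : Finset β)
    (F : Finset (α × β)) (hF : PI F) :
    (crs R (dom F) (ran F) A B).card = (prs R A B F).card := by
  symm
  apply Finset.card_bij (fun p _ => (p.1.1, p.2.2))
  · intro p hp
    rw [mem_prs] at hp
    rw [mem_crs]
    refine ⟨hp.2.1, ⟨(mem_dom _ _).2 ⟨p.1.2, hp.1.1⟩, (mem_ran _ _).2 ⟨p.2.1, hp.1.2⟩⟩, hp.2.2⟩
  · intro p hp p' hp' he
    rw [mem_prs] at hp hp'
    have e1 : p.1.1 = p'.1.1 := (Prod.mk.inj he).1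
    have e2 : p.2.2 = p'.2.2 := (Prod.mk.inj he).2
    exact prs_inj hF hp.1.1 hp.1.2 hp'.1.1 hp'.1.2 e1 e2
  · intro a ha
    rw [mem_crs] at ha
    obtain ⟨y, hy⟩ := (mem_dom _ _).1 ha.2.1.1
    obtain ⟨x, hx⟩ := (mem_ran _ _).1 ha.2.1.2
    refine ⟨((a.1, y), (x, a.2)), ?_, rfl⟩
    rw [mem_prs]
    exact ⟨⟨hy, hx⟩, ha.1, ha.2.2⟩

theorem sum_cv (I J : Finset (Λ × Λ)) (M : Finset Λ) (rep : Λ → U) (sg : Λ → Bool)
    (ω : U → Bool) (hI : ∀ p ∈ I, p.1 ∈ M ∧ p.2 ∈ M)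
    (hJ : ∀ p, p ∈ J ↔ p ∈ I ∧ (p.1 ∈ cut M rep sg ω ∧ p.2 ∈ cut M rep sg ω)) :
    ∑ p ∈ I, cv rep sg ω p.1 * cv rep sg ω p.2 = (J.card : ℝ) := by
  have hJ' : J = I.filter fun p => p.1 ∈ cut M rep sg ω ∧ p.2 ∈ cut M rep sg ω := by
    ext p
    rw [hJ, Finset.mem_filter]
  rw [hJ', Finset.card_filter]
  push_cast
  apply Finset.sum_congr rfl
  intro p hp
  have h1 := (hI p hp).1
  have h2 := (hI p hp).2
  unfold cv cut
  simp only [Finset.mem_filter, h1, h2, true_and]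
  split_ifs with a b c c <;> simp_all

theorem cq_cut [Fintype α] [Fintype β] (E R : Finset (α × β)) (L : ℕ) (Q : Finset (α ⊕ β))
    (M : Finset (α × β)) (hM : PI M) (rep : α × β → U) (sg : α × β → Bool) (ω : U → Bool) :
    cq E R (dom (cut M rep sg ω)) (ran (cut M rep sg ω)) L Q =
      ∑ p ∈ prs R (clA E (L ^ 2) Q) (clB E (L ^ 2) Q) M, cv rep sg ω p.1 * cv rep sg ω p.2 := by
  rw [sum_cv _ (prs R (clA E (L ^ 2) Q) (clB E (L ^ 2) Q) (cut M rep sg ω)) M rep sg ω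
    (fun p hp => ((mem_prs _ _ _ _ _).1 hp).1)]
  · unfold cq
    rw [crs_card _ _ _ _ (PI_sub (cut_sub _ _ _ _) hM)]
  intro p
  rw [mem_prs, mem_prs]
  constructor
  · rintro ⟨⟨h1, h2⟩, h3⟩
    exact ⟨⟨⟨cut_sub _ _ _ _ h1, cut_sub _ _ _ _ h2⟩, h3⟩, h1, h2⟩
  · rintro ⟨⟨_, h3⟩, h1, h2⟩
    exact ⟨⟨h1, h2⟩, h3⟩

end basic

section cn2

variable {α β U : Type}

/-- Pairs of partners. -/
theorem partners (M : Finset (α × β)) (hM : PI M) (rep : α × β → U) (sg : α × β → Bool)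
    (hc : Coin M rep sg) (R : Finset (α × β)) (hd : Disjoint M R) (X : Finset α) (Y : Finset β)
    (hXY : ∀ a ∈ M, a.1 ∈ X ∧ a.2 ∈ Y) (A : Finset α) (B : Finset β)
    (J : Finset ((α × β) × (α × β))) (hJ : ∀ p ∈ J, p ∈ prs R A B M ∧ rep p.1 = rep p.2) :
    J.card ≤ (X ∩ A).card + (Y ∩ B).card := by
  have hne : ∀ p ∈ prs R A B M, p.1 ≠ p.2 := by
    intro p hp he
    rw [mem_prs] at hp
    have h1 : (p.1.1, p.2.2) = p.1 := by rw [← he]
    exact (Finset.disjoint_left.1 hd) hp.1.1 (h1 ▸ hp.2.1)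
  have key : ∀ p ∈ prs R A B M, ∀ p' ∈ prs R A B M, rep p.1 = rep p.2 → rep p'.1 = rep p'.2 →
      (p.1 = p'.1 ∨ p.2 = p'.2) → p = p' := by
    intro p hp p' hp' h1 h1' ho
    have n1 := hne p hp
    have n2 := hne p' hp'
    rw [mem_prs] at hp hp'
    rcases ho with ho | ho
    · have : p.2 = p'.2 := by
        by_contra hcon
        have a1 := hc _ hp.1.2 _ hp'.1.2 hcon (by rw [← h1, ← h1', ho])
        have a2 := hc _ hp.1.1 _ hp.1.2 n1 h1
        have a3 := hc _ hp'.1.1 _ hp'.1.2 n2 h1'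
        rw [← ho] at a3
        revert a1 a2 a3
        cases sg p.1 <;> cases sg p.2 <;> cases sg p'.2 <;> simp
      exact Prod.ext ho this
    · have : p.1 = p'.1 := by
        by_contra hcon
        have a1 := hc _ hp.1.1 _ hp'.1.1 hcon (by rw [h1, h1', ho])
        have a2 := hc _ hp.1.1 _ hp.1.2 n1 h1
        have a3 := hc _ hp'.1.1 _ hp'.1.2 n2 h1'
        rw [← ho] at a3
        revert a1 a2 a3
        cases sg p.1 <;> cases sg p.2 <;> cases sg p'.1 <;> simp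
      exact Prod.ext this ho
  have hsub : J ⊆
      ((prs R A B M).filter fun p => rep p.1 = rep p.2 ∧ p.1.1 ∈ A) ∪
        ((prs R A B M).filter fun p => rep p.1 = rep p.2 ∧ p.2.2 ∈ B) := by
    intro p hp
    have hp := hJ p hp
    rw [Finset.mem_union, Finset.mem_filter, Finset.mem_filter]
    have := ((mem_prs _ _ _ _ _).1 hp.1).2.2
    tauto
  refine (Finset.card_le_card hsub).trans ((Finset.card_union_le _ _).trans (add_le_add ?_ ?_))
  · apply Finset.card_le_card_of_injOn (fun p => p.1.1)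
    · intro p hp
      rw [Finset.mem_coe, Finset.mem_filter] at hp
      have h1 := (mem_prs _ _ _ _ _).1 hp.1
      rw [Finset.mem_coe, Finset.mem_inter]
      exact ⟨(hXY _ h1.1.1).1, hp.2.2⟩
    · intro p hp p' hp' he
      rw [Finset.mem_coe, Finset.mem_filter] at hp hp'
      have h1 := (mem_prs _ _ _ _ _).1 hp.1
      have h1' := (mem_prs _ _ _ _ _).1 hp'.1
      apply key p hp.1 p' hp'.1 hp.2.1 hp'.2.1
      left
      have e : p.1.1 = p'.1.1 := he
      have h2 : (p.1.1, p.1.2) ∈ M := h1.1.1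
      have h3 : (p.1.1, p'.1.2) ∈ M := by rw [e]; exact h1'.1.1
      exact Prod.ext e (hM.1 _ _ _ h2 h3)
  · apply Finset.card_le_card_of_injOn (fun p => p.2.2)
    · intro p hp
      rw [Finset.mem_coe, Finset.mem_filter] at hp
      have h1 := (mem_prs _ _ _ _ _).1 hp.1
      rw [Finset.mem_coe, Finset.mem_inter]
      exact ⟨(hXY _ h1.1.2).2, hp.2.2⟩
    · intro p hp p' hp' he
      rw [Finset.mem_coe, Finset.mem_filter] at hp hp'
      have h1 := (mem_prs _ _ _ _ _).1 hp.1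
      have h1' := (mem_prs _ _ _ _ _).1 hp'.1
      apply key p hp.1 p' hp'.1 hp.2.1 hp'.2.1
      right
      have e : p.2.2 = p'.2.2 := he
      have h2 : (p.2.1, p.2.2) ∈ M := h1.1.2
      have h3 : (p'.2.1, p.2.2) ∈ M := by rw [e]; exact h1'.1.2
      exact Prod.ext (hM.2 _ _ _ h2 h3) e

/-- Number of crossing pairs at a link. -/
theorem at_link [Fintype α] [Fintype β] (M : Finset (α × β)) (hM : PI M) (E R' : Finset (α × β)) (hR : R' ⊆ E)
    (X : Finset α) (Y : Finset β) (hXY : ∀ a ∈ M, a.1 ∈ X ∧ a.2 ∈ Y) (A : Finset α) (B : Finset β)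
    (l : α × β) (J : Finset ((α × β) × (α × β)))
    (hJ : ∀ p ∈ J, p ∈ prs R' A B M ∧ (p.1 = l ∨ p.2 = l)) :
    J.card ≤ (out E l.1 ∩ Y).card + (inn E l.2 ∩ X).card := by
  have hsub : J ⊆
      ((prs R' A B M).filter fun p => p.1 = l) ∪ ((prs R' A B M).filter fun p => p.2 = l) := by
    intro p hp
    have hp := hJ p hp
    rw [Finset.mem_union, Finset.mem_filter, Finset.mem_filter]
    tauto
  refine (Finset.card_le_card hsub).trans ((Finset.card_union_le _ _).trans (add_le_add ?_ ?_))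
  · apply Finset.card_le_card_of_injOn (fun p => p.2.2)
    · intro p hp
      rw [Finset.mem_coe, Finset.mem_filter] at hp
      have h1 := (mem_prs _ _ _ _ _).1 hp.1
      rw [Finset.mem_coe, Finset.mem_inter, mem_out]
      refine ⟨?_, (hXY _ h1.1.2).2⟩
      rw [← hp.2]
      exact hR h1.2.1
    · intro p hp p' hp' he
      rw [Finset.mem_coe, Finset.mem_filter] at hp hp'
      have h1 := (mem_prs _ _ _ _ _).1 hp.1
      have h1' := (mem_prs _ _ _ _ _).1 hp'.1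
      exact prs_inj hM h1.1.1 h1.1.2 h1'.1.1 h1'.1.2 (by rw [hp.2, hp'.2]) he
  · apply Finset.card_le_card_of_injOn (fun p => p.1.1)
    · intro p hp
      rw [Finset.mem_coe, Finset.mem_filter] at hp
      have h1 := (mem_prs _ _ _ _ _).1 hp.1
      rw [Finset.mem_coe, Finset.mem_inter, mem_inn]
      refine ⟨?_, (hXY _ h1.1.1).1⟩
      rw [← hp.2]
      exact hR h1.2.1
    · intro p hp p' hp' he
      rw [Finset.mem_coe, Finset.mem_filter] at hp hp'
      have h1 := (mem_prs _ _ _ _ _).1 hp.1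
      have h1' := (mem_prs _ _ _ _ _).1 hp'.1
      exact prs_inj hM h1.1.1 h1.1.2 h1'.1.1 h1'.1.2 he (by rw [hp.2, hp'.2])

/-- The arithmetic. -/
theorem arith (L : ℝ) (hL : 10 ^ 4 ≤ L) (D cr s : ℝ) (hD : 1 ≤ D) (hcr : 0 ≤ cr) (hs : 1 ≤ s) :
    L ^ 2 * s ≤ 2 * (1 / L ^ 4 * cr + 9 * L ^ 6 * s * D) ^ 2 / (17 * D * cr + D) := by
  have hL0 : 0 < L := by linarith
  rw [le_div_iff₀ (by positivity)]
  have h1 : 4 * (1 / L ^ 4 * cr) * (9 * L ^ 6 * s * D) ≤
      (1 / L ^ 4 * cr + 9 * L ^ 6 * s * D) ^ 2 := by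
    nlinarith [sq_nonneg (1 / L ^ 4 * cr - 9 * L ^ 6 * s * D)]
  have h2 : (9 * L ^ 6 * s * D) ^ 2 ≤ (1 / L ^ 4 * cr + 9 * L ^ 6 * s * D) ^ 2 := by
    apply pow_le_pow_left₀ (by positivity)
    have : 0 ≤ 1 / L ^ 4 * cr := by positivity
    linarith
  have h3 : 4 * (1 / L ^ 4 * cr) * (9 * L ^ 6 * s * D) = 36 * (L ^ 2 * s * D * cr) := by
    field_simp
    ring
  have h4 : L ^ 2 * s * D ≤ (9 * L ^ 6 * s * D) ^ 2 := by
    have e : (9 * L ^ 6 * s * D) ^ 2 = (L ^ 2 * s * D) * (81 * L ^ 10 * s * D) := by ring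
    rw [e]
    apply le_mul_of_one_le_right (by positivity)
    have : (1 : ℝ) ≤ L ^ 10 := one_le_pow₀ (by linarith)
    have h5 : (1 : ℝ) ≤ L ^ 10 * s := one_le_mul_of_one_le_of_one_le this hs
    have h6 : (1 : ℝ) ≤ L ^ 10 * s * D := one_le_mul_of_one_le_of_one_le h5 hD
    nlinarith
  have h7 : 0 ≤ L ^ 2 * s * D * cr := by positivity
  nlinarith

/-- CN2. -/
theorem cn2 (hQFM : QFMStmt) (hQFT : QFTStmt) (hSIZ : SIZStmt) : CN2Stmt := by
  intro k L q D δ η r T Rr ζ P P' hP α β _ _ E R R' X Y M rep sg hpre c Q hQ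
  have hL4 : (10 : ℝ) ^ 4 ≤ (L : ℝ) := by exact_mod_cast hP.L4
  have hL0 : (0 : ℝ) < L := by linarith
  have hL1 : 1 ≤ L ^ 2 := Nat.one_le_pow _ _ (by have := hP.L4; omega)
  have hD1 : (1 : ℝ) ≤ D := by
    have : (1 : ℝ) ≤ (L : ℝ) ^ 19 := one_le_pow₀ (by linarith)
    exact this.trans hP.D1
  have hD0 : (0 : ℝ) < D := by linarith
  have hδ : δ ≤ 1 / 20 := by
    have h1 := hP.d1
    have h2 : (10 : ℝ) ^ 12 ≤ (L : ℝ) ^ 3 := by
      have := pow_le_pow_left₀ (by norm_num) hL4 3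
      calc (10 : ℝ) ^ 12 = (10 ^ 4) ^ 3 := by norm_num
        _ ≤ _ := this
    by_contra hcon
    rw [not_le] at hcon
    nlinarith
  set A := clA E (L ^ 2) Q with hA
  set B := clB E (L ^ 2) Q with hB
  have hcl := hpre.cl c
  have hR'E : R' ⊆ E := hpre.sub.trans hcl.sub
  have hXY : ∀ a ∈ M c, a.1 ∈ X c ∧ a.2 ∈ Y c := fun a ha => (hpre.mR c a ha).2
  have hcoin : Coin (M c) (rc rep c) (sg c) := by
    intro l hl l' hl' hne he
    exact hpre.cn c l hl l' hl' hne (congrArg Prod.snd he)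
  set I := prs R' A B (M c) with hI
  have hIM : ∀ p ∈ I, p.1 ∈ M c ∧ p.2 ∈ M c ∧ p.1 ≠ p.2 := by
    intro p hp
    have h1 := (mem_prs _ _ _ _ _).1 hp
    refine ⟨h1.1.1, h1.1.2, ?_⟩
    intro he
    have h2 : (p.1.1, p.2.2) = p.1 := by rw [← he]
    exact (Finset.disjoint_left.1 (hpre.mR' c)) h1.1.1 (h2 ▸ h1.2.1)
  have hQ1 : (1 : ℝ) ≤ Q.card := by
    have := Finset.card_pos.2 hQ.1
    exact_mod_cast this
  set cr := cq E R (X c) (Y c) L Q with hcr
  have hcr0 : 0 ≤ cr := by rw [hcr]; unfold cq; positivity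
  have hIc : (I.card : ℝ) = cq E R' (dom (M c)) (ran (M c)) L Q := by
    unfold cq
    rw [crs_card _ _ _ _ (hpre.mp c)]
  have hIcr : (I.card : ℝ) ≤ cr := by
    rw [hIc, hcr]
    unfold cq
    have : crs R' (dom (M c)) (ran (M c)) A B ⊆ crs R (X c) (Y c) A B := by
      intro a ha
      rw [mem_crs] at ha ⊢
      refine ⟨hpre.sub ha.1, ⟨?_, ?_⟩, ha.2.2⟩
      · obtain ⟨y, hy⟩ := (mem_dom _ _).1 ha.2.1.1
        exact (hXY _ hy).1
      · obtain ⟨x, hx⟩ := (mem_ran _ _).1 ha.2.1.2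
        exact (hXY _ hx).2
    exact_mod_cast Finset.card_le_card this
  right
  refine ⟨hQ, ?_, ?_⟩
  · -- dependence
    refine ⟨Finset.univ.filter fun u => ∃ w ∈ locC M rep u, ∃ z ∈ Q, nr3 (sadj E) w z, ?_, ?_⟩
    · intro ω ω' hω hbad
      have hcq : cq E R' (dom (cu M rep sg ω c)) (ran (cu M rep sg ω c)) L Q =
          cq E R' (dom (cu M rep sg ω' c)) (ran (cu M rep sg ω' c)) L Q := by
        unfold cu
        rw [cq_cut E R' L Q (M c) (hpre.mp c), cq_cut E R' L Q (M c) (hpre.mp c)]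
        apply Finset.sum_congr rfl
        intro p hp
        have h1 := (mem_prs _ _ _ _ _).1 hp
        have hcl' : p.1.1 ∈ A ∨ p.2.2 ∈ B := by
          rcases h1.2.2 with h | h
          · exact Or.inr h.2
          · exact Or.inl h.1
        obtain ⟨⟨z, hz, hz'⟩, ⟨z', hz1, hz2⟩⟩ :=
          near_arc E (L ^ 2) hL1 Q p.1.1 p.2.2 (hR'E h1.2.1) hcl'
        have e1 : ω (rc rep c p.1) = ω' (rc rep c p.1) := by
          apply hω
          rw [Finset.mem_filter]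
          refine ⟨Finset.mem_univ _, Sum.inl p.1.1, ?_, z, hz, hz'⟩
          unfold locC rc
          rw [Finset.mem_biUnion]
          refine ⟨p.1, ?_, by simp⟩
          rw [Finset.mem_filter]
          exact ⟨h1.1.1, rfl⟩
        have e2 : ω (rc rep c p.2) = ω' (rc rep c p.2) := by
          apply hω
          rw [Finset.mem_filter]
          refine ⟨Finset.mem_univ _, Sum.inr p.2.2, ?_, z', hz1, hz2⟩
          unfold locC rc
          rw [Finset.mem_biUnion]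
          refine ⟨p.2, ?_, by simp⟩
          rw [Finset.mem_filter]
          exact ⟨h1.1.2, rfl⟩
        unfold cv
        rw [e1, e2]
      have hb2 : ¬ (cq E R' (dom (M c)) (ran (M c)) L Q / 4 ≤
          cq E R' (dom (cu M rep sg ω c)) (ran (cu M rep sg ω c)) L Q +
          1 / (L : ℝ) ^ 4 * cr + 10 * (L : ℝ) ^ 6 * Q.card * D) := hbad
      rw [hcq] at hb2
      exact hb2
    · intro u hu
      exact (Finset.mem_filter.1 hu).2
  · -- probability
    have hT := hQFT (Fin q × (α × β)) (α × β) (M c) (rc rep c) (sg c) I ∅ ∅ ∅ 0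
      ((21 / 10 : ℝ) * D) (17 * D * cr + D) (1 / (L : ℝ) ^ 4 * cr + 9 * (L : ℝ) ^ 6 * Q.card * D)
      hcoin (by simpa using hIM) (Finset.empty_subset _) (Finset.empty_subset _) ?_ le_rfl
      (by positivity) (by positivity) ?_
    · have hlow := hT.2
      have hmean := hQFM (Fin q × (α × β)) (α × β) (M c) (rc rep c) (sg c) I hcoin hIM
      obtain ⟨pc, hpc, hpc2⟩ : ∃ pc : ℕ,
          ex (fun ω => ∑ p ∈ I, cv (rc rep c) (sg c) ω p.1 * cv (rc rep c) (sg c) ω p.2) =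
            ((I.card : ℝ) - pc) / 4 ∧ (pc : ℝ) ≤ 2 * Q.card * D := by
        refine ⟨_, hmean, ?_⟩
        have h2 := hSIZ α β E R (X c) (Y c) L D δ Q hD0.le (by linarith) hcl
        refine (Nat.cast_le.2 (partners (M c) (hpre.mp c) (rc rep c) (sg c) hcoin R' (hpre.mR' c)
          (X c) (Y c) hXY A B _ (fun p hp => mem_filter'.1 hp))).trans ?_
        have h4 : (1 : ℝ) ≤ (L : ℝ) ^ 2 := one_le_pow₀ (by linarith)
        have h5 : (0 : ℝ) ≤ ((X c ∩ A).card : ℝ) + (Y c ∩ B).card := by positivity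
        push_cast
        nlinarith
      refine (pr_mono ?_).trans (hlow.trans ?_)
      · intro ω hω
        have hω' : ¬ (cq E R' (dom (M c)) (ran (M c)) L Q / 4 ≤
            cq E R' (dom (cu M rep sg ω c)) (ran (cu M rep sg ω c)) L Q +
            1 / (L : ℝ) ^ 4 * cr + 10 * (L : ℝ) ^ 6 * Q.card * D) := hω
        have hcut : cq E R' (dom (cu M rep sg ω c)) (ran (cu M rep sg ω c)) L Q =
            ∑ p ∈ I, cv (rc rep c) (sg c) ω p.1 * cv (rc rep c) (sg c) ω p.2 := by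
          unfold cu
          rw [cq_cut E R' L Q (M c) (hpre.mp c)]
        rw [← hIc, hcut, not_le] at hω'
        simp only [Finset.sum_empty, zero_mul, sub_zero, Set.mem_ofPred_eq]
        rw [hpc]
        have hLL : (1 : ℝ) ≤ (L : ℝ) ^ 6 := one_le_pow₀ (by linarith)
        have h6 : Q.card * D ≤ (L : ℝ) ^ 6 * Q.card * D := by
          have : (0 : ℝ) ≤ Q.card * D := by positivity
          nlinarith
        linarith
      · apply Real.exp_le_exp.2
        rw [neg_le_neg_iff]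
        exact arith L hL4 D cr Q.card hD1 hcr0 hQ1
    · -- at most A pairs at a link
      intro l hl
      have h2 := hcl.ou l.1
      have h3 := hcl.iu l.2
      simp only [Finset.filter_empty, Finset.card_empty, Nat.cast_zero, add_zero]
      refine (Nat.cast_le.2 (at_link (M c) (hpre.mp c) E R' hR'E (X c) (Y c) hXY A B l _
        (fun p hp => mem_filter'.1 hp))).trans ?_
      push_cast
      have h5 : δ * D ≤ 1 / 20 * D := mul_le_mul_of_nonneg_right hδ hD0.le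
      linarith
    · simp only [Finset.card_empty, Nat.cast_zero, add_zero]
      have : 8 * ((21 / 10 : ℝ) * D) * I.card ≤ 17 * D * cr := by
        have h1 : D * (I.card : ℝ) ≤ D * cr := mul_le_mul_of_nonneg_left hIcr hD0.le
        nlinarith
      simp only [ne_eq, OfNat.ofNat_ne_zero, not_false_eq_true, zero_pow, mul_zero, zero_mul,
        add_zero]
      linarith

end cn2

end Pool.Agent.LAP.H68
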