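import Pool.Agent.Helper68_LAP.CN2

/-!
# LAP, module CN4: the events for the degrees
-/

set_option autoImplicit false

namespace Pool.Agent.LAP.H68

open scoped Classical

variable {α β U : Type}

theorem card_ran (M : Finset (α × β)) (hM : PI M) (G : Finset β) (J : Finset (α × β))
    (hJ : ∀ l, l ∈ J ↔ l ∈ M ∧ l.2 ∈ G) : (G ∩ ran M).card = J.card := by
  symm
  apply Finset.card_bij (fun l _ => l.2)
  · intro l hl
    rw [hJ] at hl
    rw [Finset.mem_inter, mem_ran]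
    exact ⟨hl.2, l.1, hl.1⟩
  · intro l hl l' hl' he
    rw [hJ] at hl hl'
    have h1 : (l.1, l.2) ∈ M := hl.1
    have h2 : (l'.1, l.2) ∈ M := by rw [he]; exact hl'.1
    exact Prod.ext (hM.2 _ _ _ h1 h2) he
  · intro y hy
    rw [Finset.mem_inter, mem_ran] at hy
    obtain ⟨x, hx⟩ := hy.2
    exact ⟨(x, y), (hJ _).2 ⟨hx, hy.1⟩, rfl⟩

theorem card_dom (M : Finset (α × β)) (hM : PI M) (G : Finset α) (J : Finset (α × β))
    (hJ : ∀ l, l ∈ J ↔ l ∈ M ∧ l.1 ∈ G) : (G ∩ dom M).card = J.card := by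
  symm
  apply Finset.card_bij (fun l _ => l.1)
  · intro l hl
    rw [hJ] at hl
    rw [Finset.mem_inter, mem_dom]
    exact ⟨hl.2, l.2, hl.1⟩
  · intro l hl l' hl' he
    rw [hJ] at hl hl'
    have h1 : (l.1, l.2) ∈ M := hl.1
    have h2 : (l.1, l'.2) ∈ M := by rw [he]; exact hl'.1
    exact Prod.ext he (hM.1 _ _ _ h1 h2)
  · intro x hx
    rw [Finset.mem_inter, mem_dom] at hx
    obtain ⟨y, hy⟩ := hx.2
    exact ⟨(x, y), (hJ _).2 ⟨hy, hx.1⟩, rfl⟩

theorem sum_cv1 (I J : Finset (α × β)) (M : Finset (α × β)) (rep : α × β → U)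
    (sg : α × β → Bool) (ω : U → Bool) (hI : ∀ p ∈ I, p ∈ M)
    (hJ : ∀ p, p ∈ J ↔ p ∈ cut M rep sg ω ∧ p ∈ I) :
    ∑ p ∈ I, cv rep sg ω p = (J.card : ℝ) := by
  have hJ' : J = I.filter fun p => p ∈ cut M rep sg ω := by
    ext p
    rw [hJ, mem_filter']
    tauto
  rw [hJ', Finset.card_filter]
  push_cast
  apply Finset.sum_congr rfl
  intro p hp
  have h1 := hI p hp
  unfold cv cut
  simp only [Finset.mem_filter, h1, true_and]

theorem lnk_single {W : Type} (r : W → W → Prop) (z : W) : Lnk r {z} := by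
  refine ⟨Finset.singleton_nonempty z, ?_⟩
  intro u hu v hv
  rw [Finset.mem_singleton] at hu hv
  subst hu hv
  exact Relation.ReflTransGen.refl

variable [Fintype α] [Fintype β]

/-- The events for a linear form with near links. -/
theorem ev_lin (hLIN : LINStmt) {k L q : ℕ} {D δ η r T Rr ζ : ℝ} {P P' : ℕ}
    (hP : Prm k L q D δ η r T Rr ζ P P') (E : Finset (α × β)) (M : Fin q → Finset (α × β))
    (rep : Fin q → α × β → α × β) (sg : Fin q → α × β → Bool) (c : Fin q)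
    (hcoin : Coin (M c) (rc rep c) (sg c)) (J : Finset (α × β)) (hJM : J ⊆ M c)
    (hJ : (J.card : ℝ) ≤ 21 / 20 * D) (z : α ⊕ β)
    (hnear : ∀ l ∈ J, nr3 (sadj E) (Sum.inl l.1) z ∨ nr3 (sadj E) (Sum.inr l.2) z)
    (N : (Fin q × (α × β) → Bool) → ℝ)
    (hN : ∀ ω, N ω = ∑ l ∈ J, cv (rc rep c) (sg c) ω l) (b : ℝ) (m : ℝ)
    (hm : m = J.card) :
    Ev (sadj E) L (locC M rep) {ω | ¬ (m / 2 ≤ N ω + 1 / (L : ℝ) ^ 4 * D)} {z} ∧
    (m ≤ b →
      Ev (sadj E) L (locC M rep) {ω | ¬ (N ω ≤ b / 2 + 1 / (L : ℝ) ^ 4 * D)} {z}) := by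
  have hL4 : (10 : ℝ) ^ 4 ≤ (L : ℝ) := by exact_mod_cast hP.L4
  have hL0 : (0 : ℝ) < L := by linarith
  have hD1 : (1 : ℝ) ≤ D := by
    have : (1 : ℝ) ≤ (L : ℝ) ^ 19 := one_le_pow₀ (by linarith)
    exact this.trans hP.D1
  have hD0 : (0 : ℝ) < D := by linarith
  have hLIN' := (hLIN (Fin q × (α × β)) (α × β) (M c) (rc rep c) (sg c) hcoin).2 J hJM
    (21 / 20 * D) (1 / (L : ℝ) ^ 4 * D) hJ (by positivity) (by positivity)
  have hexp : Real.exp (-((1 / (L : ℝ) ^ 4 * D) ^ 2 / (21 / 20 * D))) ≤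
      Real.exp (-((L : ℝ) ^ 2 * (({z} : Finset (α ⊕ β)).card : ℝ))) := by
    apply Real.exp_le_exp.2
    rw [neg_le_neg_iff, Finset.card_singleton, Nat.cast_one, mul_one,
      le_div_iff₀ (by positivity)]
    have h1 : (1 / (L : ℝ) ^ 4 * D) ^ 2 = D / (L : ℝ) ^ 8 * D := by
      field_simp
    have h2 : (L : ℝ) ^ 11 ≤ D / (L : ℝ) ^ 8 := by
      rw [le_div_iff₀ (by positivity)]
      calc (L : ℝ) ^ 11 * (L : ℝ) ^ 8 = (L : ℝ) ^ 19 := by ring
        _ ≤ D := hP.D1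
    have h3 : 2 * (L : ℝ) ^ 2 ≤ (L : ℝ) ^ 11 := by
      have : (2 : ℝ) ≤ (L : ℝ) ^ 9 := by
        have : (L : ℝ) ^ 1 ≤ (L : ℝ) ^ 9 := pow_le_pow_right₀ (by linarith) (by norm_num)
        linarith
      calc 2 * (L : ℝ) ^ 2 ≤ (L : ℝ) ^ 9 * (L : ℝ) ^ 2 :=
            mul_le_mul_of_nonneg_right this (by positivity)
        _ = _ := by ring
    rw [h1]
    calc (L : ℝ) ^ 2 * (21 / 20 * D) = (21 / 20 * (L : ℝ) ^ 2) * D := by ring
      _ ≤ (2 * (L : ℝ) ^ 2) * D := by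
          apply mul_le_mul_of_nonneg_right _ hD0.le
          have : (0 : ℝ) ≤ (L : ℝ) ^ 2 := by positivity
          linarith
      _ ≤ D / (L : ℝ) ^ 8 * D := mul_le_mul_of_nonneg_right (h3.trans h2) hD0.le
  obtain ⟨Bf, hBf⟩ : ∃ Bf : Finset (Fin q × (α × β)), ∀ u, u ∈ Bf ↔
      ∃ w ∈ locC M rep u, ∃ z' ∈ ({z} : Finset (α ⊕ β)), nr3 (sadj E) w z' :=
    ⟨Finset.univ.filter fun u => ∃ w ∈ locC M rep u, ∃ z' ∈ ({z} : Finset (α ⊕ β)),
      nr3 (sadj E) w z', fun u => by rw [mem_filter']; simp only [Finset.mem_univ, true_and]⟩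
  have hdep : ∀ ω ω' : Fin q × (α × β) → Bool, (∀ u ∈ Bf, ω u = ω' u) → N ω = N ω' := by
    intro ω ω' hω
    rw [hN, hN]
    apply Finset.sum_congr rfl
    intro l hl
    have e1 : ω (rc rep c l) = ω' (rc rep c l) := by
      apply hω
      rw [hBf]
      rcases hnear l hl with h | h
      · refine ⟨Sum.inl l.1, ?_, z, Finset.mem_singleton_self _, h⟩
        unfold locC rc
        rw [Finset.mem_biUnion]
        refine ⟨l, ?_, by simp⟩
        rw [mem_filter']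
        exact ⟨hJM hl, rfl⟩
      · refine ⟨Sum.inr l.2, ?_, z, Finset.mem_singleton_self _, h⟩
        unfold locC rc
        rw [Finset.mem_biUnion]
        refine ⟨l, ?_, by simp⟩
        rw [mem_filter']
        exact ⟨hJM hl, rfl⟩
    unfold cv
    rw [e1]
  constructor
  · right
    refine ⟨lnk_single _ _, ⟨Bf, ?_, fun u hu => (hBf u).1 hu⟩, ?_⟩
    · intro ω ω' hω hbad
      have hb : ¬ (m / 2 ≤ N ω + 1 / (L : ℝ) ^ 4 * D) := hbad
      rw [hdep ω ω' hω] at hb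
      exact hb
    · refine (pr_mono ?_).trans (hLIN'.2.trans hexp)
      intro ω hω
      have hb : ¬ (m / 2 ≤ N ω + 1 / (L : ℝ) ^ 4 * D) := hω
      rw [not_le, hm, hN] at hb
      show (_ : ℝ) ≤ _
      linarith
  · intro hmb
    right
    refine ⟨lnk_single _ _, ⟨Bf, ?_, fun u hu => (hBf u).1 hu⟩, ?_⟩
    · intro ω ω' hω hbad
      have hb : ¬ (N ω ≤ b / 2 + 1 / (L : ℝ) ^ 4 * D) := hbad
      rw [hdep ω ω' hω] at hb
      exact hb
    · refine (pr_mono ?_).trans (hLIN'.1.trans hexp)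
      intro ω hω
      have hb : ¬ (N ω ≤ b / 2 + 1 / (L : ℝ) ^ 4 * D) := hω
      rw [not_le, hN] at hb
      show (_ : ℝ) ≤ _
      linarith

/-- CN4. -/
theorem cn4 (hLIN : LINStmt) : CN4Stmt := by
  intro k L q D δ η r T Rr ζ P P' hP α β _ _ E R R' X Y M rep sg hpre c
  have hL4 : (10 : ℝ) ^ 4 ≤ (L : ℝ) := by exact_mod_cast hP.L4
  have hD1 : (1 : ℝ) ≤ D := by
    have : (1 : ℝ) ≤ (L : ℝ) ^ 19 := one_le_pow₀ (by linarith)
    exact this.trans hP.D1
  have hD0 : (0 : ℝ) < D := by linarith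
  have hδ : δ ≤ 1 / 20 := by
    have h1 := hP.d1
    have h2 : (10 : ℝ) ^ 12 ≤ (L : ℝ) ^ 3 := by
      have := pow_le_pow_left₀ (by norm_num) hL4 3
      calc (10 : ℝ) ^ 12 = (10 ^ 4) ^ 3 := by norm_num
        _ ≤ _ := this
    by_contra hcon
    rw [not_le] at hcon
    nlinarith
  have hδD : (1 + δ) * D ≤ 21 / 20 * D :=
    mul_le_mul_of_nonneg_right (by linarith) hD0.le
  have hcl := hpre.cl c
  have hR'E : R' ⊆ E := hpre.sub.trans hcl.sub
  have hXY : ∀ a ∈ M c, a.1 ∈ X c ∧ a.2 ∈ Y c := fun a ha => (hpre.mR c a ha).2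
  have hcoin : Coin (M c) (rc rep c) (sg c) := by
    intro l hl l' hl' hne he
    exact hpre.cn c l hl l' hl' hne (congrArg Prod.snd he)
  have hcutPI : ∀ ω, PI (cut (M c) (rc rep c) (sg c) ω) := fun ω =>
    PI_sub (cut_sub _ _ _ _) (hpre.mp c)
  -- heads
  have hranN : ∀ (G : Finset β) (ω : Fin q × (α × β) → Bool),
      ((G ∩ ran (cu M rep sg ω c)).card : ℝ) =
        ∑ l ∈ (M c).filter (fun l => l.2 ∈ G), cv (rc rep c) (sg c) ω l := by
    intro G ω
    rw [sum_cv1 ((M c).filter (fun l => l.2 ∈ G))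
      ((cut (M c) (rc rep c) (sg c) ω).filter (fun l => l.2 ∈ G)) (M c) (rc rep c) (sg c) ω
      (fun p hp => (mem_filter'.1 hp).1)]
    · unfold cu
      rw [card_ran _ (hcutPI ω) G ((cut (M c) (rc rep c) (sg c) ω).filter (fun l => l.2 ∈ G))
        (fun l => mem_filter')]
    · intro p
      rw [mem_filter', mem_filter']
      exact ⟨fun h => ⟨h.1, cut_sub _ _ _ _ h.1, h.2⟩, fun h => ⟨h.1, h.2.2⟩⟩
  have hdomN : ∀ (G : Finset α) (ω : Fin q × (α × β) → Bool),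
      ((G ∩ dom (cu M rep sg ω c)).card : ℝ) =
        ∑ l ∈ (M c).filter (fun l => l.1 ∈ G), cv (rc rep c) (sg c) ω l := by
    intro G ω
    rw [sum_cv1 ((M c).filter (fun l => l.1 ∈ G))
      ((cut (M c) (rc rep c) (sg c) ω).filter (fun l => l.1 ∈ G)) (M c) (rc rep c) (sg c) ω
      (fun p hp => (mem_filter'.1 hp).1)]
    · unfold cu
      rw [card_dom _ (hcutPI ω) G ((cut (M c) (rc rep c) (sg c) ω).filter (fun l => l.1 ∈ G))
        (fun l => mem_filter')]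
    · intro p
      rw [mem_filter', mem_filter']
      exact ⟨fun h => ⟨h.1, cut_sub _ _ _ _ h.1, h.2⟩, fun h => ⟨h.1, h.2.2⟩⟩
  have hJr : ∀ (G : Finset β), G ∩ ran (M c) ⊆ G ∩ Y c := by
    intro G y hy
    rw [Finset.mem_inter] at hy ⊢
    obtain ⟨x, hx⟩ := (mem_ran _ _).1 hy.2
    exact ⟨hy.1, (hXY _ hx).2⟩
  have hJd : ∀ (G : Finset α), G ∩ dom (M c) ⊆ G ∩ X c := by
    intro G x hx
    rw [Finset.mem_inter] at hx ⊢
    obtain ⟨y, hy⟩ := (mem_dom _ _).1 hx.2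
    exact ⟨hx.1, (hXY _ hy).1⟩
  have hR'o : ∀ x, out R' x ⊆ out E x := by
    intro x y hy
    rw [mem_out] at hy ⊢
    exact hR'E hy
  have hR'i : ∀ y, inn R' y ⊆ inn E y := by
    intro y x hx
    rw [mem_inn] at hx ⊢
    exact hR'E hx
  constructor
  · intro x
    have hcE : (((M c).filter (fun l => l.2 ∈ out E x)).card : ℝ) ≤ (out E x ∩ Y c).card := by
      rw [← card_ran (M c) (hpre.mp c) (out E x) ((M c).filter (fun l => l.2 ∈ out E x))
        (fun l => mem_filter')]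
      exact_mod_cast Finset.card_le_card (hJr _)
    have hnearx : ∀ l : α × β, l.2 ∈ out E x → nr3 (sadj E) (Sum.inr l.2) (Sum.inl x) := by
      intro l hl
      rw [mem_out] at hl
      exact ⟨Sum.inr l.2, Sum.inr l.2, nr1_refl _ _, nr1_refl _ _, Or.inr hl⟩
    constructor
    · refine (ev_lin hLIN hP E M rep sg c hcoin ((M c).filter (fun l => l.2 ∈ out R' x))
        (Finset.filter_subset _ _) ?_ (Sum.inl x) ?_ _ (hranN (out R' x)) 0 _ ?_).1
      · refine le_trans ?_ (hcE.trans ((hcl.ou x).trans hδD))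
        exact_mod_cast Finset.card_le_card (fun l hl =>
          mem_filter'.2 ⟨(mem_filter'.1 hl).1, hR'o x (mem_filter'.1 hl).2⟩)
      · intro l hl
        exact Or.inr (hnearx l (hR'o x (mem_filter'.1 hl).2))
      · rw [card_ran (M c) (hpre.mp c) (out R' x) ((M c).filter (fun l => l.2 ∈ out R' x))
          (fun l => mem_filter')]
    · refine (ev_lin hLIN hP E M rep sg c hcoin ((M c).filter (fun l => l.2 ∈ out E x))
        (Finset.filter_subset _ _) (hcE.trans ((hcl.ou x).trans hδD)) (Sum.inl x) ?_ _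
        (hranN (out E x)) _ _ rfl).2 hcE
      intro l hl
      exact Or.inr (hnearx l (mem_filter'.1 hl).2)
  · intro y
    have hcE : (((M c).filter (fun l => l.1 ∈ inn E y)).card : ℝ) ≤ (inn E y ∩ X c).card := by
      rw [← card_dom (M c) (hpre.mp c) (inn E y) ((M c).filter (fun l => l.1 ∈ inn E y))
        (fun l => mem_filter')]
      exact_mod_cast Finset.card_le_card (hJd _)
    have hneary : ∀ l : α × β, l.1 ∈ inn E y → nr3 (sadj E) (Sum.inl l.1) (Sum.inr y) := by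
      intro l hl
      rw [mem_inn] at hl
      exact ⟨Sum.inl l.1, Sum.inl l.1, nr1_refl _ _, nr1_refl _ _, Or.inr hl⟩
    constructor
    · refine (ev_lin hLIN hP E M rep sg c hcoin ((M c).filter (fun l => l.1 ∈ inn R' y))
        (Finset.filter_subset _ _) ?_ (Sum.inr y) ?_ _ (hdomN (inn R' y)) 0 _ ?_).1
      · refine le_trans ?_ (hcE.trans ((hcl.iu y).trans hδD))
        exact_mod_cast Finset.card_le_card (fun l hl =>
          mem_filter'.2 ⟨(mem_filter'.1 hl).1, hR'i y (mem_filter'.1 hl).2⟩)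
      · intro l hl
        exact Or.inl (hneary l (hR'i y (mem_filter'.1 hl).2))
      · rw [card_dom (M c) (hpre.mp c) (inn R' y) ((M c).filter (fun l => l.1 ∈ inn R' y))
          (fun l => mem_filter')]
    · refine (ev_lin hLIN hP E M rep sg c hcoin ((M c).filter (fun l => l.1 ∈ inn E y))
        (Finset.filter_subset _ _) (hcE.trans ((hcl.iu y).trans hδD)) (Sum.inr y) ?_ _
        (hdomN (inn E y)) _ _ rfl).2 hcE
      intro l hl
      exact Or.inl (hneary l (mem_filter'.1 hl).2)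

end Pool.Agent.LAP.H68
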